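import Pool.Agent.V11219.ClsMain

/-!
# The Mumford-Tate conjecture for products with powers of varieties with local monodromy of two kinds

Let `W` be a Weil cohomology theory with algebraically closed coefficients on a class of smooth
proper varieties, and let `Γ` be a group which acts on the cohomology of the varieties `X_i` and `Z`
with the formal properties of a Galois action (the example: the `ℓ`-adic cohomology of varieties over
a number field and its Galois group; `χ` is the action on the Tate twists).

Let `C` be a system of classes: for every variety `A` a space `C(A)` of cohomology classes, containing the
classes of algebraic cycles and stable under products, pull-backs and push-forwards (`ClassSystem`). The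
examples: the linear combinations of Hodge classes (by the comparison isomorphism), of absolute Hodge
classes, of motivated classes, of algebraic classes. A Tate class of `A` is a class in `H^(2j)(A)` which is
multiplied by `χ(g)^j` by all `g` in a subgroup of finite index of `Γ`; `TateIn χ C A` is the statement
that all Tate classes of `A` belong to `C(A)`, for Hodge classes the essential part of the
Mumford-Tate conjecture.

Let `X_i` be varieties of odd dimension for which numerical and homological equivalence coincide (for
example curves, hypersurfaces, complete intersections), whose transcendental cohomology `T_i` (the
orthogonal complement of the algebraic classes) is concentrated in the middle degree and irreducible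
under all subgroups of finite index of `Γ`. For every `i` let there be one element `g_i` of `Γ`, with
`χ (g_i) = 1` (an element of an inertia group), of one of the following kinds (different `i` may be of
different kinds):

* `g_i` acts trivially on the cohomology of `Z` and of the `X_j`, `j ≠ i`, and `(g_i - 1) ^ 2 = 0` on
  `T_i`, where the rank of `g_i - 1` is arbitrary, but the rank and the multiplicities of the nonzero
  eigenvalues of the operators `(g_i - 1) (g' - 1)`, for `g'` with the same properties (for instance
  conjugates of `g_i`), have no common prime factor, or one of them is two. Example: `v_i` is a place
  at which `X_i` has any number of ordinary double points and `Z` and the other `X_j` have good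
  reduction;
* `g_i` acts on `T_i` with finite order and its eigenvalues on `T_i` are isolated with respect to a
  group `Λ_i` of numbers which contains all eigenvalues of `g_i` on the cohomology of `Z` and of the
  `X_j`, `j ≠ i`, and some element of `Γ` has two eigenvalues on `T_i` whose quotient is not a root
  of unity. Example: the model of `X_i` at `v_i` is smooth except for one singularity
  `x_0 ^ 2 + ⋯ + x_{n-1} ^ 2 + x_n ^ (2m+1) = t`, `2 m < dim T_i`, in residue characteristic prime to
  `2 (2m + 1)`, and `Z` and the other `X_j` have semistable reduction at `v_i`.

Let `T` be a product of `Z` with arbitrary powers of the `X_i`. Then **all Tate classes of `T` belong to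
`C(T)` if and only if all Tate classes of `Z` belong to `C(Z)`**. With Hodge classes for `C`, for all
powers of `Z`, this is the Mumford-Tate conjecture: the group `G_ℓ°` (reductive by hypothesis or by
the theorem of Faltings) is determined by its invariants in the cohomology of the powers, and the
statement says that they are Hodge classes. It is NOT assumed that the Mumford-Tate conjecture is
known for the `X_i`; nothing is assumed on `Z`.

Proof. The Lie algebra of the operators on `T_i` which kill all the multilinear maps from `T_i` to the
cohomology of the other factors that are equivariant under a subgroup of finite index is the whole
symplectic Lie algebra (extremal elements, or components for isolated eigenvalues). By the first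
fundamental theorem the Tate classes on the product of a power of `X_i` with `A` are combinations of
products of algebraic classes of the power and Tate classes of `A`.
-/

universe u

namespace Pool.Agent.Results.MP_c1bb77_ag.LocalMonodromyProducts

open Pool.Agent.H914 Pool.Agent.H281R3.HT Pool.Agent.TH125.Gal Pool.Agent.V11219.Cls

/-- **Hodge classes and Tate classes on products with powers.** -/
theorem result {k : Type u} [Field k] {𝒱 : VarClass k} {ops : CycleOps 𝒱}
    (W : WeilCohomology.{u, 0} ops) [IsAlgClosed W.K] {Γ : Type} [Group Γ] (χ : Γ →* W.Kˣ)
    (C : Classes W) (hC : ClassSystem W C)
    {ι : Type} (X : ι → GVar W Γ) (Z : GVar W Γ) (h : LocalVars χ X Z) (S : Set ι)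
    (T : GVar W Γ) (hT : Tower X Z S T) : TateIn χ C T ↔ TateIn χ C Z :=
  cls_local hC h (hT.gTower h.odd)

end Pool.Agent.Results.MP_c1bb77_ag.LocalMonodromyProducts
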