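import Pool.Agent.Y132.AH.MT

/-!
# The Mumford-Tate conjecture for products with powers of varieties of symplectic type

`W` is the cohomology of the varieties of a class of smooth proper varieties over a number field (or
any finitely generated field with an embedding into `ℂ`), with coefficients in an algebraically
closed field `W.K` (the `ℓ`-adic cohomology with coefficients in an algebraic closure of `ℚ_ℓ`,
identified with the singular cohomology), with the action of the Galois group `Γ` (`GaloisData`,
the character `χ` gives the action on the Tate twists) and with its rational Hodge structures
(`HodgeData`; the rational classes are the classes fixed by the automorphisms of the coefficients).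

A Tate class on `Y` is a class `c` in `H^(2j)(Y)` such that `g c = χ(g)^j c` for all `g` in a subgroup
of finite index of `Γ`; `MumfordTate Ψ G Y` says that the Tate classes on `Y` are the linear
combinations of the Hodge classes, and `MumfordTateAll Ψ G Y` says this for all powers of `Y` (by
reductivity this is the equality of the algebraic group `G_ℓ°` and of the Mumford-Tate group for the
total cohomology of `Y`).

`X i` is any family, possibly infinite, of odd-dimensional varieties (for example curves,
hypersurfaces and complete intersections of odd dimension) such that homological and numerical
equivalence coincide on `X i` and the transcendental cohomology `T i` (the orthogonal complement of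
the algebraic classes) is in the middle degree and not zero; the Mumford-Tate group acts irreducibly
on the Lie algebra `sp(T i)` and these representations are pairwise not isomorphic (`SpFamily`); the
Galois group acts irreducibly on the Lie algebra `sp(T i)`, some element has two eigenvalues on `T i`
whose quotient is not a root of unity, and these representations are pairwise not isomorphic
(`BigFamily`). `Z` is ANY variety.
-/

open CategoryTheory AlgebraicGeometry

universe u

namespace Pool.Agent.Results.MP_c1bb77_ag.SmallProductsMumfordTate

open Pool.Agent.H914 Pool.Agent.H914.VarClass Pool.Agent.H914.VarClass.Obj Pool.Agent.Y132.AH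

variable {k : Type u} [Field k] {𝒱 : VarClass k} {ops : CycleOps 𝒱}

/-- There is a finite set `B` of exceptions, with `∑_{i ∈ B} dim T i ≤ 2 dim H(Z)`, which contains no
`i` such that both the slopes and the Hodge types of `T i` are separated from those of `Z`
(`SlopeSep`, `TypeSep`), with the following property. For every product of `Z` with powers of the
`X i`, given by a list `L` of indices, the conjecture holds for the product if and only if it holds
for the partial products `L'` which are small (`SmallDim`): the entries of `L'` are in `B`, and for
some `m` the numbers `∏ (n_i + 1)` and `∑ dim T i` (`n_i` the number of the entries `i`, over the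
different entries `i` of `L'`) are at most the Betti number `b_m(Z)`. In particular only finitely
many products have to be considered. If all `X i` are separated from `Z`, then the conjecture holds
for all powers of any such product if and only if it holds for all powers of `Z`. -/
theorem result (W : WeilCohomology.{u, 0} ops) [IsAlgClosed W.K] {Γ : Type} [Group Γ]
    (G : GaloisData W Γ) (Ψ : HodgeData W) {ι : Type} [DecidableEq ι] (X : ι → 𝒱.Obj)
    (hH : SpFamily Ψ X) (hG : BigFamily G X) (Z : 𝒱.Obj) :
    (∃ B : Finset ι, ∑ i ∈ B, trDim W (X i) ≤ 2 * totDim W Z ∧
      (∀ i ∈ B, ¬(SlopeSep G (X i) Z ∧ TypeSep Ψ (X i) Z)) ∧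
      ∀ L : List ι, MumfordTate Ψ G (prodList X Z L) ↔
        ∀ L' : List ι, L'.Sublist L → SmallDim W X Z B L' →
          MumfordTate Ψ G (prodList X Z L')) ∧
    ((∀ i, SlopeSep G (X i) Z ∧ TypeSep Ψ (X i) Z) →
      ∀ L : List ι, MumfordTateAll Ψ G (prodList X Z L) ↔ MumfordTateAll Ψ G Z) :=
  ⟨mt_iff' G Ψ Z hH hG, fun h L =>
    mt_all G Ψ Z hH (bigFamily_ad G (spFamily_odd Ψ hH) hG) (fun i => (h i).1)
      (fun i => (h i).2) L⟩

end Pool.Agent.Results.MP_c1bb77_ag.SmallProductsMumfordTate
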