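import Pool.Agent.V1183.SV.Main

/-!
# The algebraic monodromy group is generated by the Frobenius elements at a sparse set of primes

Let `f` be any function. There is a sequence `T` of prime numbers, growing faster than prescribed by `f`,
and splitting completely in an infinite unramified tower `L / k`, such that the following holds for every
number field `K`, every prime number `ℓ` and every continuous representation `ρ : G_K → GL_n(ℚ_ℓ)` which is
unramified outside a finite set of primes, e.g. `H^i(X, ℚ_ℓ)` for a smooth projective variety `X` over `K`.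

There are a finite extension `K'` of `K` and a Zariski closed subgroup `G` of `GL_n(ℚ_ℓ)`, such that
* `G` is the smallest Zariski closed subgroup which contains `ρ(G_K'')`, for every finite extension `K''` of
  `K'`, i.e. `G` is the identity component of the algebraic monodromy group;
* `G` is the smallest Zariski closed subgroup `M` such that for almost all `i` each Frobenius element of
  `G_K` above `T i` has a power which is mapped to `M`;
* a Zariski closed subgroup `M`, e.g. the Mumford-Tate group, contains `G` if and only if for almost all `i`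
  each Frobenius element of `G_K` above `T i` has a power which is mapped to `M`.
-/

set_option autoImplicit false

namespace Pool.Agent.Results.MP_c1bb77_ag.SparseFrobeniusElements

open NumberField IntermediateField Module Polynomial

attribute [local instance 10] DivisionRing.toRatAlgebra

/-- the absolute Galois group of `ℚ` -/
abbrev GQ : Type := Gal(AlgebraicClosure ℚ/ℚ)

/-- the ring of all algebraic integers -/
abbrev ZBar : Type := 𝓞 (AlgebraicClosure ℚ)

/-- `τ` lies in the inertia group at the maximal ideal `P` of the ring of all algebraic integers -/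
def Inertia (P : Ideal ZBar) (τ : GQ) : Prop := ∀ x : ZBar, τ • x - x ∈ P

/-- `σ` is a (geometric) Frobenius element at the maximal ideal `P` above the prime number `q`: it induces
the inverse of `x ↦ x ^ q` on the residue field -/
def Frobenius (q : ℕ) (P : Ideal ZBar) (σ : GQ) : Prop := ∀ x : ZBar, x - (σ • x) ^ q ∈ P

/-- `L` is a totally real Galois extension of infinite degree of the real quadratic field `k`, unramified at
all finite places, and a union of finite extensions of `ℚ` whose degrees are powers of two -/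
structure UnramifiedTower (k L : IntermediateField ℚ (AlgebraicClosure ℚ)) : Prop where
  quadratic : finrank ℚ k = 2 ∧ ∃ s ∈ k,
    s ^ 2 = ((17 * 41 * 73 * 89 * 97 * 113 * 137 * 193 * 233 * 241 : ℕ) : AlgebraicClosure ℚ)
  le : k ≤ L
  infinite : ¬ FiniteDimensional ℚ L
  galois : ∀ σ : GQ, (∀ x ∈ k, σ x = x) → ∀ y ∈ L, σ y ∈ L
  unramified : ∀ q : ℕ, q.Prime → ∀ P : Ideal ZBar, P.IsMaximal → (q : ZBar) ∈ P → ∀ τ : GQ,
    (∀ x ∈ k, τ x = x) → Inertia P τ → ∀ y ∈ L, τ y = y
  real : ∀ (φ : L →+* ℂ) (y : L), (φ y).im = 0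
  two : ∀ y ∈ L, ∃ m : ℕ, finrank ℚ ℚ⟮y⟯ = 2 ^ m

/-- the prime number `q` is unramified and splits completely in `L`: all inertia elements and all Frobenius
elements above `q` fix `L` -/
def SplitsCompletely (q : ℕ) (L : IntermediateField ℚ (AlgebraicClosure ℚ)) : Prop :=
  ∀ P : Ideal ZBar, P.IsMaximal → (q : ZBar) ∈ P → ∀ σ : GQ, Inertia P σ ∨ Frobenius q P σ →
    ∀ y ∈ L, σ y = y

/-- the property `C` holds for the Frobenius elements at the places of `K` of degree one above almost all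
`T i` -/
def AtAlmostAll (K : IntermediateField ℚ (AlgebraicClosure ℚ)) (T : ℕ → ℕ)
    (C : K.fixingSubgroup → Prop) : Prop :=
  ∃ i₀ : ℕ, ∀ i ≥ i₀, ∀ P : Ideal ZBar, P.IsMaximal → (T i : ZBar) ∈ P →
    ∀ σ : K.fixingSubgroup, Frobenius (T i) P σ → C σ

/-- the property `C` holds for all elements of the absolute Galois group of `K'` -/
def Over (K K' : IntermediateField ℚ (AlgebraicClosure ℚ)) (C : K.fixingSubgroup → Prop) : Prop :=
  ∀ σ : K.fixingSubgroup, (∀ x ∈ K', (σ : GQ) x = x) → C σ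

section rep

variable {K : IntermediateField ℚ (AlgebraicClosure ℚ)} {ℓ : ℕ} [Fact ℓ.Prime] {n : ℕ}

/-- `ρ` is continuous and unramified outside a finite set of primes -/
def AlmostUnramified (ρ : K.fixingSubgroup →* GL (Fin n) ℚ_[ℓ]) : Prop :=
  Continuous ρ ∧
  ∃ S : Finset ℕ, ∀ q : ℕ, q.Prime → q ∉ S → ∀ P : Ideal ZBar, P.IsMaximal → (q : ZBar) ∈ P →
    ∀ τ : K.fixingSubgroup, Inertia P τ → ρ τ = 1

/-- the subgroup `M` of `GL_n(ℚ_ℓ)` is Zariski closed: it is the set of the common zeros of a set of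
polynomials in the entries of the matrices -/
def ZariskiClosed (M : Subgroup (GL (Fin n) ℚ_[ℓ])) : Prop :=
  ∃ I : Set (MvPolynomial (Fin n × Fin n) ℚ_[ℓ]), ∀ g : GL (Fin n) ℚ_[ℓ],
    g ∈ M ↔ ∀ F ∈ I, MvPolynomial.eval (fun v => (g : Matrix (Fin n) (Fin n) ℚ_[ℓ]) v.1 v.2) F = 0

/-- `ρ` maps the absolute Galois group of `K'` to `M` -/
def MapsTo (ρ : K.fixingSubgroup →* GL (Fin n) ℚ_[ℓ]) (K' : IntermediateField ℚ (AlgebraicClosure ℚ))
    (M : Subgroup (GL (Fin n) ℚ_[ℓ])) : Prop :=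
  Over K K' fun σ => ρ σ ∈ M

/-- for almost all `i` each Frobenius element of `G_K` above `T i` has a power which is mapped to `M` -/
def FrobeniusPowersIn (T : ℕ → ℕ) (ρ : K.fixingSubgroup →* GL (Fin n) ℚ_[ℓ])
    (M : Subgroup (GL (Fin n) ℚ_[ℓ])) : Prop :=
  AtAlmostAll K T fun σ => ∃ a : ℕ, 0 < a ∧ ρ σ ^ a ∈ M

/-- `G` is the connected algebraic monodromy group of `ρ`, and it is reached over `K'`: it is the smallest
Zariski closed subgroup of `GL_n(ℚ_ℓ)` containing `ρ(G_K'')`, for all finite extensions `K''` of `K'` -/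
def IsConnectedMonodromyGroup (ρ : K.fixingSubgroup →* GL (Fin n) ℚ_[ℓ])
    (K' : IntermediateField ℚ (AlgebraicClosure ℚ)) (G : Subgroup (GL (Fin n) ℚ_[ℓ])) : Prop :=
  ∀ K'' : IntermediateField ℚ (AlgebraicClosure ℚ), K' ≤ K'' → FiniteDimensional ℚ K'' →
    IsLeast {M | ZariskiClosed M ∧ MapsTo ρ K'' M} G

end rep

theorem exists_field (K : IntermediateField ℚ (AlgebraicClosure ℚ)) [FiniteDimensional ℚ K]
    (U : Subgroup GQ) (hU : IsOpen (U : Set GQ)) :
    ∃ K' : IntermediateField ℚ (AlgebraicClosure ℚ), K ≤ K' ∧ FiniteDimensional ℚ K' ∧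
      ∀ σ : GQ, (∀ x ∈ K', σ x = x) → σ ∈ U := by
  obtain ⟨E, hE, hEU⟩ := (krullTopology_mem_nhds_one_iff _ _ _).1 (hU.mem_nhds U.one_mem)
  refine ⟨K ⊔ E, le_sup_left, inferInstance, fun σ hσ => hEU ?_⟩
  rw [SetLike.mem_coe, IntermediateField.mem_fixingSubgroup_iff]
  exact fun x hx => hσ x ((le_sup_right : E ≤ K ⊔ E) hx)

/-- intersections of Zariski closed subgroups -/
theorem closed_sInf {ℓ : ℕ} [Fact ℓ.Prime] {n : ℕ} (S : Set (Subgroup (GL (Fin n) ℚ_[ℓ])))
    (hS : ∀ M ∈ S, ZariskiClosed M) : ZariskiClosed (sInf S) := by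
  choose I hI using hS
  refine ⟨⋃ M : S, I M.1 M.2, fun g => ?_⟩
  rw [Subgroup.mem_sInf]
  constructor
  · rintro h F hF
    obtain ⟨M, hM⟩ := Set.mem_iUnion.1 hF
    exact (hI M.1 M.2 g).1 (h M.1 M.2) F hM
  · rintro h M hM
    exact (hI M hM g).2 fun F hF => h F (Set.mem_iUnion.2 ⟨⟨M, hM⟩, hF⟩)

/-- **Main result.** -/
theorem result (f : ℕ → ℕ) :
    ∃ (T : ℕ → ℕ) (k L : IntermediateField ℚ (AlgebraicClosure ℚ)),
      (∀ i, (T i).Prime ∧ T i < T (i + 1) ∧ f (T i) < T (i + 1)) ∧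
      UnramifiedTower k L ∧ (∀ i, SplitsCompletely (T i) L) ∧
      ∀ (K : IntermediateField ℚ (AlgebraicClosure ℚ)), FiniteDimensional ℚ K →
        ∀ (ℓ : ℕ) [Fact ℓ.Prime] (n : ℕ) (ρ : K.fixingSubgroup →* GL (Fin n) ℚ_[ℓ]),
          AlmostUnramified ρ →
          ∃ (K' : IntermediateField ℚ (AlgebraicClosure ℚ)) (G : Subgroup (GL (Fin n) ℚ_[ℓ])),
            K ≤ K' ∧ FiniteDimensional ℚ K' ∧ IsConnectedMonodromyGroup ρ K' G ∧
            IsLeast {M | ZariskiClosed M ∧ FrobeniusPowersIn T ρ M} G ∧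
            ∀ M : Subgroup (GL (Fin n) ℚ_[ℓ]), ZariskiClosed M →
              (G ≤ M ↔ FrobeniusPowersIn T ρ M) := by
  obtain ⟨T, k, L, hT1, hT2, htow, hrep⟩ := Pool.Agent.V1183.SV.main f
  refine ⟨T, k, L, fun i => ⟨hT1 i, ?_, ?_⟩, ⟨⟨htow.rank, htow.sqrt⟩, htow.le, htow.inf, htow.galois,
    htow.unr, htow.real, htow.two⟩, ?_, ?_⟩
  · have := hT2 i
    omega
  · have := hT2 i
    have := (hT1 i).pos
    omega
  · intro i P hP hTP σ hσ
    rcases hσ with hσ | hσ
    · exact htow.unrT i P hP hTP σ hσ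
    · exact htow.split i P hP hTP σ hσ
  · intro K hK ℓ hℓ n ρ hρ
    obtain ⟨U, hU, hUK, h1⟩ := hrep K.fixingSubgroup K.fixingSubgroup_isOpen ℓ 1 (fun _ => n)
      (fun _ => ρ) (fun _ => hρ.1) (fun _ => by
        obtain ⟨S, hS⟩ := hρ.2
        exact ⟨S, fun q hq hqS P hP hqP τ hτ hτP => hS q hq hqS P hP hqP ⟨τ, hτ⟩ hτP⟩)
    obtain ⟨K', hKK', hK', hK'U⟩ := exists_field K U hU
    -- Frobenius elements to the Galois group of `K'`
    have h3 : ∀ M : Subgroup (GL (Fin n) ℚ_[ℓ]), ZariskiClosed M → FrobeniusPowersIn T ρ M →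
        MapsTo ρ K' M := by
      rintro M ⟨I, hI⟩ ⟨i0, hi0⟩ σ hσ
      rw [hI]
      intro F hF
      have hev : ∀ τ : K.fixingSubgroup, Pool.Agent.V1183.SV.ev (e := fun _ : Fin 1 => n)
          (MvPolynomial.rename (fun v => ⟨0, v⟩) F)
          (Pool.Agent.V1183.SV.mat (fun _ : Fin 1 => ρ) τ) =
          MvPolynomial.eval (fun v => (ρ τ : Matrix (Fin n) (Fin n) ℚ_[ℓ]) v.1 v.2) F := by
        intro τ
        unfold Pool.Agent.V1183.SV.ev
        rw [MvPolynomial.eval_rename]
        rfl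
      have h4 := h1 (MvPolynomial.rename (fun v => ⟨0, v⟩) F) ⟨i0, fun i hi P hP hTP τ hτ hτP => by
        obtain ⟨a, ha, h2⟩ := hi0 i hi P hP hTP ⟨τ, hτ⟩ hτP
        refine ⟨a, ha.ne', fun k _ => ?_⟩
        have h5 : ρ (⟨τ, hτ⟩ ^ (a * k)) ∈ M := by
          rw [map_pow, pow_mul]
          exact M.pow_mem h2 k
        exact (hev _).trans ((hI _).1 h5 F hF)⟩ σ.1 (hK'U _ hσ) σ.2
      exact (hev σ).symm.trans h4
    -- finite extensions to Frobenius elements
    have h2 : ∀ (K'' : IntermediateField ℚ (AlgebraicClosure ℚ)), FiniteDimensional ℚ K'' →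
        ∀ M : Subgroup (GL (Fin n) ℚ_[ℓ]), MapsTo ρ K'' M → FrobeniusPowersIn T ρ M := by
      intro K'' hK'' M h
      refine ⟨0, fun i _ P _ _ σ _ => ?_⟩
      have hfi : K''.fixingSubgroup.FiniteIndex :=
        Pool.Agent.Y802.TS.finiteIndex_of_open K''.fixingSubgroup_isOpen
      obtain ⟨a, ha, -, h4⟩ := Subgroup.exists_pow_mem_of_index_ne_zero hfi.index_ne_zero (σ : GQ)
      refine ⟨a, ha, ?_⟩
      rw [← map_pow]
      exact h (σ ^ a) fun x hx => (IntermediateField.mem_fixingSubgroup_iff _ _).1 h4 x hx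
    set G : Subgroup (GL (Fin n) ℚ_[ℓ]) := sInf {M | ZariskiClosed M ∧ MapsTo ρ K' M} with hG
    have hGc : ZariskiClosed G := closed_sInf _ fun M hM => hM.1
    have hGm : MapsTo ρ K' G := by
      intro σ hσ
      rw [hG, Subgroup.mem_sInf]
      exact fun M hM => hM.2 σ hσ
    have hGle : ∀ M : Subgroup (GL (Fin n) ℚ_[ℓ]), ZariskiClosed M → MapsTo ρ K' M → G ≤ M :=
      fun M hM hM' => sInf_le ⟨hM, hM'⟩
    refine ⟨K', G, hKK', hK', ?_, ⟨⟨hGc, h2 K' hK' G hGm⟩, ?_⟩, fun M hM => ⟨fun h => ?_, fun h => ?_⟩⟩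
    · intro K'' hK'K'' hK''
      refine ⟨⟨hGc, fun σ hσ => hGm σ fun x hx => hσ x (hK'K'' hx)⟩, ?_⟩
      rintro M ⟨hM, hM'⟩
      exact hGle M hM (h3 M hM (h2 K'' hK'' M hM'))
    · rintro M ⟨hM, hM'⟩
      exact hGle M hM (h3 M hM hM')
    · exact h2 K' hK' M fun σ hσ => h (hGm σ hσ)
    · exact hGle M hM (h3 M hM h)

end Pool.Agent.Results.MP_c1bb77_ag.SparseFrobeniusElements
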